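import Pool.Agent.H91.PL.LBD

/-!
# Row COR: the main lemma
-/

set_option autoImplicit false

open Finset Polynomial Pool.Agent.H23.PL

namespace Pool.Agent.H91.PL

theorem al_gt : 2 < al := by
  unfold al
  have h : (1 : ℝ) < √2 := by
    rw [Real.lt_sqrt (by norm_num)]
    norm_num
  linarith

theorem f1_inj {z : ℤ√2} (h : f1 z = 0) : z = 0 := by
  by_contra hz
  have h1 := one_le_norm z hz
  rw [h] at h1
  simp at h1
  linarith

/-- the inverse of `1 + √2` -/
def ei : ℤ√2 := ⟨-1, 1⟩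

/-- `1 + √2` -/
def eu : ℤ√2 := ⟨1, 1⟩

theorem f1_ei : f1 ei = al⁻¹ := by
  have h1 : f1 ei * al = 1 := by
    rw [f1_apply]
    unfold al ei
    push_cast
    linear_combination sq2
  exact eq_inv_of_mul_eq_one_left h1

theorem f2_ei : f2 ei = -al := by
  rw [f2_apply]
  unfold al ei
  push_cast
  ring

theorem f1_eu : f1 eu = al := by
  rw [f1_apply]
  unfold al eu
  push_cast
  ring

theorem f2_eu : |f2 eu| ≤ 1 := by
  rw [f2_apply]
  unfold eu
  push_cast
  have h1 : √2 ≤ 2 := by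
    rw [Real.sqrt_le_left (by norm_num)]
    norm_num
  have h2 : 0 ≤ √2 := Real.sqrt_nonneg _
  rw [abs_le]
  constructor <;> linarith

theorem pf_COR (hSEQ : T_SEQ) (hGCF : T_GCF) (hSRS : T_SRS) (hTRC : T_TRC) (hGAP : T_GAP)
    (hNSQ : T_NSQ) : T_COR := by
  intro h N n₀ δ Z P i₀ n hh hN hdeg hc0 hck hroot hsimple hodd hn0 hn hprod
  by_contra hcon
  push Not at hcon
  have hal := al_gt
  have hal0 : 0 < al := by linarith
  have hal1 : 1 ≤ al := by linarith
  have hNpos : 0 < N := Fin.pos i₀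
  obtain ⟨M, hM⟩ := hN
  have hM1 : 1 ≤ M := by omega
  set K := h * M with hK
  have hK1 : 1 ≤ K := Nat.mul_pos hh hM1
  set E := h * N with hE
  have hEK : E = 2 * K := by rw [hE, hM, hK]; ring
  have hE1 : 1 ≤ E := by omega
  -- the exponents
  have hle : ∀ i, n₀ ≤ n i := by
    intro i
    by_cases hi : i = i₀
    · rw [hi, hn0]
    · exact (hn i hi).1.le
  set d : Fin N → ℕ := fun i => n i - n₀ with hd
  have hnd : ∀ i, n i = n₀ + d i := by
    intro i
    have := hle i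
    simp only [hd]
    omega
  have hdδ : ∀ i, d i ≤ δ := by
    intro i
    by_cases hi : i = i₀
    · have : d i = 0 := by
        simp only [hd]
        rw [hi, hn0]
        omega
      omega
    · have := (hn i hi).2
      simp only [hd]
      omega
  have hd0 : d i₀ = 0 := by
    simp only [hd]
    rw [hn0]
    omega
  -- the polynomial
  set w : Fin N → ℤ√2 := fun i => ei ^ (2 * d i) with hw
  have hf1w : ∀ i, f1 (w i) = al⁻¹ ^ (2 * d i) := by
    intro i
    simp only [hw]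
    rw [map_pow, f1_ei]
  have hf2w : ∀ i, |f2 (w i)| ≤ al ^ (2 * δ) := by
    intro i
    simp only [hw]
    rw [map_pow, f2_ei, abs_pow, abs_neg, abs_of_pos hal0]
    exact pow_le_pow_right₀ hal1 (by have := hdδ i; omega)
  have hinv1 : al⁻¹ ≤ 1 := inv_le_one_of_one_le₀ hal1
  have hinv0 : 0 < al⁻¹ := inv_pos.mpr hal0
  have hf1w1 : ∀ i, |f1 (w i)| ≤ 1 := by
    intro i
    rw [hf1w, abs_of_pos (pow_pos hinv0 _)]
    exact pow_le_one₀ hinv0.le hinv1
  obtain ⟨hG1, hG2, hG3⟩ := hGCF (2 * h) N P w hdeg.le hck hc0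
  set G := GG P w with hG
  have hNE : N * (2 * h) = 2 * E := by rw [hE]; ring
  rw [hNE] at hG1 hG3
  have hch : ∀ k, ((2 * E).choose k : ℝ) ≤ (2 * (E : ℝ)) ^ k := by
    intro k
    have h1 := Nat.choose_le_pow (2 * E) k
    exact_mod_cast h1
  obtain ⟨γ, hγ0, hγ1, hγ2⟩ := hSEQ (fun k => G.coeff k) hG2
  have hE0 : (0 : ℝ) < E := by exact_mod_cast hE1
  have hρ1 : 1 ≤ al ^ (2 * δ) := one_le_pow₀ hal1
  have hγf1 : ∀ k, |f1 (γ k)| ≤ (16 * (2 * (E : ℝ))) ^ k := by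
    apply hγ2 f1
    intro k
    have h1 := hG3 f1 1 hf1w1 k
    rw [one_pow, mul_one] at h1
    exact h1.trans (hch k)
  have hγf2 : ∀ k, |f2 (γ k)| ≤ (16 * (2 * (E : ℝ) * al ^ (2 * δ))) ^ k := by
    apply hγ2 f2
    intro k
    have h1 := hG3 f2 (al ^ (2 * δ)) hf2w k
    rw [mul_pow]
    exact h1.trans (mul_le_mul_of_nonneg_right (hch k) (by positivity))
  -- the unit
  set sd : ℕ := h * ∑ i, d i with hsd
  have hsdle : sd ≤ E * δ := by
    rw [hsd, hE, mul_assoc]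
    apply Nat.mul_le_mul_left
    calc ∑ i, d i ≤ ∑ _i : Fin N, δ := sum_le_sum fun i _ => hdδ i
      _ = N * δ := by simp
  set κ : ℤ√2 := eu ^ sd with hκ
  have hf1κ : f1 κ = al ^ sd := by rw [hκ, map_pow, f1_eu]
  have hf2κ : |f2 κ| ≤ 1 := by
    rw [hκ, map_pow, abs_pow]
    exact pow_le_one₀ (abs_nonneg _) f2_eu
  set V : ℝ := al ^ (E * δ) with hV
  have hV1 : 1 ≤ V := one_le_pow₀ hal1
  have hκV : f1 κ ≤ V := by
    rw [hf1κ]
    exact pow_le_pow_right₀ hal1 hsdle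
  have hf1κ0 : 0 < f1 κ := by rw [hf1κ]; positivity
  set a : ℕ → ℤ√2 := fun k => κ * γ k with ha
  set R : ℝ := 8 * E with hR
  have hR1 : 1 ≤ R := by
    have : (1 : ℝ) ≤ E := by exact_mod_cast hE1
    rw [hR]; linarith
  set ρ : ℝ := al ^ (2 * δ) with hρ
  have hρK : ρ ^ K ≤ V := by
    rw [hρ, hV, ← pow_mul]
    apply le_of_eq
    congr 1
    rw [hEK]; ring
  have ha1 : ∀ k, |f1 (a k)| ≤ V * (4 * R) ^ k := by
    intro k
    simp only [ha]
    rw [map_mul, abs_mul, abs_of_pos hf1κ0]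
    have h1 := hγf1 k
    have h2 : 16 * (2 * (E : ℝ)) = 4 * R := by rw [hR]; ring
    rw [h2] at h1
    exact mul_le_mul hκV h1 (abs_nonneg _) (by positivity)
  have ha2 : ∀ k, |f2 (a k)| ≤ (4 * R * ρ) ^ k := by
    intro k
    simp only [ha]
    rw [map_mul, abs_mul]
    have h1 := hγf2 k
    have h2 : 16 * (2 * (E : ℝ) * ρ) = 4 * R * ρ := by rw [hR]; ring
    rw [h2] at h1
    calc |f2 κ| * |f2 (γ k)| ≤ 1 * (4 * R * ρ) ^ k :=
          mul_le_mul hf2κ h1 (abs_nonneg _) (by norm_num)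
      _ = _ := one_mul _
  -- the value of the constant
  have hUU : UU E δ = 4 * 16 ^ (2 * K) * V * R ^ (4 * K + 1) * ρ ^ (4 * K) := by
    unfold UU
    have h1 : al ^ (5 * E * δ) = V * ρ ^ (4 * K) := by
      rw [hV, hρ, ← pow_mul, ← pow_add]
      congr 1
      rw [hEK]; ring
    have h2 : 2 * E + 1 = 4 * K + 1 := by omega
    rw [h1, h2, hR, ← hEK]
    ring
  set x : ℝ := al⁻¹ ^ (2 * n₀) with hx
  have hx0 : 0 < x := pow_pos hinv0 _
  have hxa : x * al ^ (2 * n₀) = 1 := by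
    rw [hx, ← mul_pow, inv_mul_cancel₀ hal0.ne', one_pow]
  have hlast : 3 * (4 * 16 ^ (2 * K) * V * R ^ (4 * K + 1) * ρ ^ (4 * K)) ^ 2 * x < 1 := by
    rw [← hUU, ← hxa, mul_comm x]
    exact mul_lt_mul_of_pos_right hcon hx0
  have hUR : 4 * R ≤ 4 * 16 ^ (2 * K) * V * R ^ (4 * K + 1) * ρ ^ (4 * K) := by
    have h1 : (1 : ℝ) ≤ 16 ^ (2 * K) := one_le_pow₀ (by norm_num)
    have h2 : R ≤ R ^ (4 * K + 1) := by
      calc R = R ^ 1 := (pow_one R).symm
        _ ≤ R ^ (4 * K + 1) := pow_le_pow_right₀ hR1 (by omega)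
    have h3 : 1 ≤ ρ ^ (4 * K) := one_le_pow₀ hρ1
    have hR0 : 0 < R := by linarith
    calc 4 * R = 4 * 1 * 1 * R * 1 := by ring
      _ ≤ 4 * 16 ^ (2 * K) * V * R ^ (4 * K + 1) * ρ ^ (4 * K) := by gcongr
  have h4Rx : 4 * R * x ≤ 1 := by
    set W := 4 * 16 ^ (2 * K) * V * R ^ (4 * K + 1) * ρ ^ (4 * K) with hW
    have hW1 : 1 ≤ W := by linarith
    have h1 : W ≤ 3 * W ^ 2 := by nlinarith
    have h2 : 4 * R * x ≤ 3 * W ^ 2 * x := mul_le_mul_of_nonneg_right (hUR.trans h1) hx0.le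
    linarith
  -- the value of the square root
  set g : ℕ → ℝ := fun k => f1 (γ k) / 4 ^ k with hg
  have hg0 : g 0 = 1 := by simp only [hg]; rw [hγ0]; simp
  have hgc : ∀ k, ∑ ij ∈ antidiagonal k, g ij.1 * g ij.2 = (G.map f1).coeff k := by
    intro k
    have h1 := congrArg f1 (hγ1 k)
    rw [map_sum, map_mul, map_pow] at h1
    have h2 : f1 4 = 4 := map_ofNat f1 4
    rw [h2] at h1
    rw [coeff_map]
    have h3 : ∑ ij ∈ antidiagonal k, g ij.1 * g ij.2 =
        (∑ ij ∈ antidiagonal k, f1 (γ ij.1 * γ ij.2)) / 4 ^ k := by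
      rw [sum_div]
      apply sum_congr rfl
      intro ij hij
      rw [Finset.HasAntidiagonal.mem_antidiagonal] at hij
      simp only [hg]
      rw [map_mul, ← hij, pow_add]
      field_simp
    rw [h3, h1]
    field_simp
  have hgR : ∀ k, |g k| ≤ R ^ k := by
    intro k
    simp only [hg]
    rw [abs_div, abs_of_pos (by positivity : (0 : ℝ) < 4 ^ k), div_le_iff₀ (by positivity)]
    have h1 := hγf1 k
    have h2 : 16 * (2 * (E : ℝ)) = R * 4 := by rw [hR]; ring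
    rw [h2, mul_pow] at h1
    exact h1
  obtain ⟨hs1, hs2, hs3⟩ := hSRS (G.map f1) g R x hg0 hgc hgR hx0 h4Rx
  set S := ∑' k, g k * x ^ k with hS
  have hGx : (G.map f1).eval x = ∏ i, aeval (al⁻¹ ^ (2 * n i)) P := by
    rw [hG]
    unfold GG
    rw [Polynomial.map_prod, eval_prod]
    apply prod_congr rfl
    intro i _
    rw [Polynomial.map_comp, Polynomial.map_map]
    have h1 : f1.comp (Int.castRingHom (ℤ√2)) = Int.castRingHom ℝ := RingHom.ext_int _ _
    rw [h1, eval_comp]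
    have h2 : eval x (Polynomial.map f1 (C (w i) * X)) = al⁻¹ ^ (2 * n i) := by
      rw [Polynomial.map_mul, map_C, map_X, eval_mul, eval_C, eval_X, hf1w, hx, ← pow_add]
      congr 1
      rw [hnd i]; ring
    rw [h2, aeval_def, eval_map]
    rfl
  have hZ : (Z : ℝ) ^ 2 = (al ^ (E * n₀) * f1 κ * S) ^ 2 := by
    rw [← hprod, prod_mul_distrib, ← hGx, ← hs3, prod_pow_eq_pow_sum, hf1κ, mul_pow, mul_pow]
    congr 1
    rw [← pow_mul, ← pow_mul, ← pow_add]
    congr 1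
    rw [← mul_sum]
    have h1 : ∑ i, n i = N * n₀ + ∑ i, d i := by
      calc ∑ i, n i = ∑ i, (n₀ + d i) := sum_congr rfl fun i _ => hnd i
        _ = _ := by rw [sum_add_distrib]; simp
    rw [h1, hsd, hE]
    ring
  have hZ' : (Z : ℝ) = al ^ (E * n₀) * f1 κ * S := by
    have h1 : 0 ≤ al ^ (E * n₀) * f1 κ * S := by positivity
    exact (pow_left_inj₀ (Nat.cast_nonneg _) h1 two_ne_zero).mp hZ
  have hsum : HasSum (fun k => f1 (a k) / 4 ^ k * x ^ k) (Z * al⁻¹ ^ (2 * K * n₀)) := by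
    have h1 : (Z : ℝ) * al⁻¹ ^ (2 * K * n₀) = f1 κ * S := by
      rw [hZ', ← hEK]
      have h2 : al ^ (E * n₀) * al⁻¹ ^ (E * n₀) = 1 := by
        rw [← mul_pow, mul_inv_cancel₀ hal0.ne', one_pow]
      linear_combination (f1 κ * S) * h2
    rw [h1]
    have h2 := (hs1.hasSum).mul_left (f1 κ)
    have h3 : (fun k => f1 (a k) / 4 ^ k * x ^ k) = fun k => f1 κ * (g k * x ^ k) := by
      funext k
      simp only [ha, hg]
      rw [map_mul]
      ring
    rw [h3]
    exact h2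
  have hzero := hTRC K n₀ Z a V R ρ hK1 hV1 hR1 hρ1 hρK ha1 ha2 hsum hlast
  have hgap : ∀ k, E < k → k ≤ 2 * E → γ k = 0 := by
    intro k h1 h2
    have h3 := hzero k (by omega) (by omega)
    simp only [ha] at h3
    have h4 := congrArg f1 h3
    rw [map_mul, map_zero] at h4
    rcases mul_eq_zero.mp h4 with h5 | h5
    · exact absurd h5 hf1κ0.ne'
    · exact f1_inj h5
  obtain ⟨Q, hQ⟩ := hGAP E G γ hG1 hγ1 hgap
  refine hNSQ N P w i₀ hroot hsimple ?_ ?_ Q hQ
  · simp only [hw]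
    rw [hd0]
    simp
  · intro i hi
    rw [hf1w]
    have h1 : 0 < d i := by
      have := (hn i hi).1
      simp only [hd]
      omega
    exact ⟨pow_pos hinv0 _, pow_lt_one₀ hinv0.le (inv_lt_one_of_one_lt₀ (by linarith)) (by omega)⟩

end Pool.Agent.H91.PL
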