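import Pool.Agent.H23.PL.Targets

/-!
# Row NSQ: the product is not a square
-/

set_option autoImplicit false

open Finset Polynomial Pool.Agent.H23.PL

namespace Pool.Agent.H91.PL

theorem map_GG {N : ℕ} (P : ℤ[X]) (w : Fin N → ℤ√2) :
    ((GG P w).map f1).map (algebraMap ℝ ℂ) =
      ∏ i, (P.map (Int.castRingHom ℂ)).comp (C ((f1 (w i) : ℝ) : ℂ) * X) := by
  unfold GG
  rw [Polynomial.map_prod, Polynomial.map_prod]
  apply prod_congr rfl
  intro i _
  rw [Polynomial.map_comp, Polynomial.map_comp, Polynomial.map_map, Polynomial.map_map]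
  have h : ((algebraMap ℝ ℂ).comp f1).comp (Int.castRingHom (ℤ√2)) = Int.castRingHom ℂ :=
    RingHom.ext_int _ _
  rw [h]
  congr 1
  simp

theorem pf_NSQ : T_NSQ := by
  classical
  intro N P w i₀ hroot hsimple hw hwi Q hQ
  obtain ⟨z₀, hz, hz'⟩ := hsimple
  have hz1 := hroot z₀ hz
  set PC := P.map (Int.castRingHom ℂ) with hPC
  have hev : ∀ z : ℂ, eval z PC = aeval z P := by
    intro z
    rw [hPC, aeval_def, eval_map]
    rfl
  have hev' : ∀ z : ℂ, eval z (derivative PC) = aeval z (derivative P) := by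
    intro z
    rw [hPC, derivative_map, aeval_def, eval_map]
    rfl
  have h1 : (Q.map (algebraMap ℝ ℂ)) ^ 2 =
      ∏ i, PC.comp (C ((f1 (w i) : ℝ) : ℂ) * X) := by
    rw [← map_GG, ← hQ, Polynomial.map_pow]
  rw [← mul_prod_erase univ _ (mem_univ i₀)] at h1
  set H := ∏ i ∈ univ.erase i₀, PC.comp (C ((f1 (w i) : ℝ) : ℂ) * X) with hH
  have h2 : PC.comp (C ((f1 (w i₀) : ℝ) : ℂ) * X) = PC := by
    rw [hw, map_one]
    simp
  rw [h2] at h1
  have h3 : eval z₀ (Q.map (algebraMap ℝ ℂ)) = 0 := by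
    have h4 := congrArg (eval z₀) h1
    rw [eval_pow, eval_mul, hev, hz, zero_mul] at h4
    exact pow_eq_zero_iff (two_ne_zero) |>.mp h4
  have h4 := congrArg (fun p => eval z₀ (derivative p)) h1
  simp only [derivative_pow, derivative_mul, eval_mul, eval_add, eval_pow, h3, hev, hz,
    hev', zero_mul, add_zero] at h4
  have h5 : eval z₀ H ≠ 0 := by
    rw [hH, eval_prod]
    apply prod_ne_zero_iff.mpr
    intro i hi h6
    rw [mem_erase] at hi
    rw [eval_comp, eval_mul, eval_C, eval_X, hev] at h6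
    have h7 := hroot _ h6
    obtain ⟨h8, h9⟩ := hwi i hi.1
    rw [norm_mul, hz1, mul_one, Complex.norm_real, Real.norm_eq_abs, abs_of_pos h8] at h7
    linarith
  have h6 := mul_ne_zero hz' h5
  apply h6
  rw [← h4]
  simp

end Pool.Agent.H91.PL
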