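import Pool.Agent.H23.PL.Targets

/-!
# Row LBD: small power sums of elements with bounded conjugates vanish
-/

set_option autoImplicit false

open Finset Polynomial Pool.Agent.H23.PL

namespace Pool.Agent.H91.PL

theorem one_le_norm (z : ℤ√2) (hz : z ≠ 0) : 1 ≤ |f1 z| * |f2 z| := by
  have h1 : f1 z * f2 z = ((z.re ^ 2 - 2 * z.im ^ 2 : ℤ) : ℝ) := by
    rw [f1_apply, f2_apply]
    push_cast
    linear_combination (-(z.im : ℝ) ^ 2) * sq2
  have h2 : (z.re ^ 2 - 2 * z.im ^ 2 : ℤ) ≠ 0 := by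
    intro h
    have h3 : z.norm = 0 := by
      rw [Zsqrtd.norm_def]
      linarith
    have h4 : z = 0 := by
      rwa [Zsqrtd.norm_eq_zero] at h3
      intro n hn
      have h5 : n ^ 2 = 2 := by rw [sq]; exact hn.symm
      have h6 : |n| < 2 := by
        by_contra hc
        push Not at hc
        have := sq_abs n
        nlinarith
      have h7 := abs_lt.mp h6
      have h8 : n = -1 ∨ n = 0 ∨ n = 1 := by omega
      rcases h8 with h | h | h <;> subst h <;> norm_num at h5
    exact hz h4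
  rw [← abs_mul, h1]
  have h3 : 1 ≤ |(z.re ^ 2 - 2 * z.im ^ 2 : ℤ)| := Int.one_le_abs h2
  exact_mod_cast h3

theorem geo_le {x : ℝ} (hx : 0 < x) (hx3 : x ≤ 1 / 3) (n : ℕ) : ∑ i ∈ range n, x ^ i ≤ 3 / 2 := by
  induction n with
  | zero => simp; norm_num
  | succ n ih =>
    rw [sum_range_succ']
    have h1 : ∑ i ∈ range n, x ^ (i + 1) = x * ∑ i ∈ range n, x ^ i := by
      rw [mul_sum]
      exact sum_congr rfl fun i _ => by ring
    have h2 : 0 ≤ ∑ i ∈ range n, x ^ i := sum_nonneg fun i _ => by positivity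
    rw [h1, pow_zero]
    nlinarith

theorem pf_LBD : T_LBD := by
  intro J B U x hx hU hUx hB hS
  have hx3 : x ≤ 1 / 3 := by nlinarith [mul_nonneg (sub_nonneg.mpr hU) (by linarith : (0:ℝ) ≤ U + 1)]
  intro j
  induction j using Nat.strong_induction_on with
  | _ j ih =>
    intro hj
    by_contra hne
    obtain ⟨hb1, hb2⟩ := hB j hj
    have h1 := one_le_norm (B j) hne
    have hU0 : 0 < U := by linarith
    have h2 : 1 ≤ |f1 (B j)| * U :=
      h1.trans (mul_le_mul_of_nonneg_left hb2 (abs_nonneg _))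
    -- the sum
    have h3 : ∑ i ∈ range (J + 1), f1 (B i) * x ^ i =
        f1 (B j) * x ^ j + ∑ i ∈ Ico (j + 1) (J + 1), f1 (B i) * x ^ i := by
      rw [range_eq_Ico, ← sum_Ico_consecutive _ (Nat.zero_le (j + 1)) (by omega : j + 1 ≤ J + 1),
        ← range_eq_Ico, sum_range_succ]
      have h4 : ∑ i ∈ range j, f1 (B i) * x ^ i = 0 := by
        apply sum_eq_zero
        intro i hi
        rw [mem_range] at hi
        rw [ih i hi (by omega), map_zero, zero_mul]
      rw [h4, zero_add]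
    have h4 : |∑ i ∈ Ico (j + 1) (J + 1), f1 (B i) * x ^ i| ≤
        ∑ i ∈ Ico (j + 1) (J + 1), U * x ^ i := by
      refine (abs_sum_le_sum_abs _ _).trans (sum_le_sum fun i hi => ?_)
      rw [mem_Ico] at hi
      rw [abs_mul, abs_of_pos (pow_pos hx i)]
      exact mul_le_mul_of_nonneg_right (hB i (by omega)).1 (pow_pos hx i).le
    have h5 : ∑ i ∈ Ico (j + 1) (J + 1), U * x ^ i + U * x ^ (J + 1) =
        U * x ^ (j + 1) * ∑ i ∈ range (J + 1 + 1 - (j + 1)), x ^ i := by
      rw [← sum_Ico_succ_top (by omega : j + 1 ≤ J + 1) (fun i => U * x ^ i),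
        sum_Ico_eq_sum_range, mul_sum]
      exact sum_congr rfl fun i _ => by ring
    have h6 := geo_le hx hx3 (J + 1 + 1 - (j + 1))
    have h7 : |f1 (B j)| * x ^ j ≤ U * x ^ (j + 1) * (3 / 2) := by
      have h8 : |f1 (B j) * x ^ j| ≤ |∑ i ∈ range (J + 1), f1 (B i) * x ^ i| +
          |∑ i ∈ Ico (j + 1) (J + 1), f1 (B i) * x ^ i| := by
        have h9 : f1 (B j) * x ^ j = ∑ i ∈ range (J + 1), f1 (B i) * x ^ i -
          ∑ i ∈ Ico (j + 1) (J + 1), f1 (B i) * x ^ i := by rw [h3]; ring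
        rw [h9]
        exact abs_sub _ _
      rw [abs_mul, abs_of_pos (pow_pos hx j)] at h8
      have h10 := mul_le_mul_of_nonneg_left h6 (by positivity : 0 ≤ U * x ^ (j + 1))
      linarith
    have h8 : |f1 (B j)| ≤ U * x * (3 / 2) := by
      have h9 : U * x ^ (j + 1) * (3 / 2) = U * x * (3 / 2) * x ^ j := by ring
      rw [h9] at h7
      exact le_of_mul_le_mul_right h7 (pow_pos hx j)
    have h9 : |f1 (B j)| * U ≤ U * x * (3 / 2) * U := mul_le_mul_of_nonneg_right h8 hU0.le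
    nlinarith

end Pool.Agent.H91.PL
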